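import Pool.Agent.N463.MI.Fin

/-!
# Parity bias of missing integers in overpartitions (MP_b2a904_nt)

For every `n > 27` more overpartitions of `n` have an even number of missing integers than an odd
one.
-/

set_option autoImplicit false

namespace Pool.Agent.Results.MP_b2a904_nt.OverpartitionBias

/-- An overpartition of `n`: a partition of `n` together with a set `S` of its part sizes, the
sizes whose first occurrence is overlined. -/
abbrev Overpartition (n : ℕ) : Type :=
  (p : n.Partition) × {S : Finset ℕ // S ∈ p.parts.toFinset.powerset}

/-- The number of missing integers of (the underlying partition of) an overpartition: the integers
`i ≥ 1` smaller than the largest part that are not parts. -/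
def missing {n : ℕ} (p : n.Partition) : ℕ :=
  ((Finset.Ico 1 (p.parts.toFinset.sup id)).filter (fun i => i ∉ p.parts)).card

/-- The number of overpartitions of `n` with an even number of missing integers. -/
def evenCount (n : ℕ) : ℕ :=
  (Finset.univ.filter (fun p : Overpartition n => Even (missing p.1))).card

/-- The number of overpartitions of `n` with an odd number of missing integers. -/
def oddCount (n : ℕ) : ℕ :=
  (Finset.univ.filter (fun p : Overpartition n => Odd (missing p.1))).card

/-- For every `n > 27` the number of overpartitions of `n` with an even number of missing integers
is greater than the number of those with an odd number of missing integers. -/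
theorem result : ∀ n : ℕ, 27 < n → oddCount n < evenCount n :=
  Pool.Agent.N463.MI.over_even_gt_odd

end Pool.Agent.Results.MP_b2a904_nt.OverpartitionBias
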